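import Pool.Agent.Work.MP_db9399_hc.Single
import Pool.Agent.Work.MP_db9399_ot.Interface
import Pool.Agent.Work.MP_db9399_bg.Base

/-! CORE of THEOREM OUT from RND1 and CAPE for one host (helper83). -/

set_option autoImplicit false

namespace Pool.Agent.Work.MP_db9399_hc.helper83

open Finset Classical
open Pool.Agent.Work.MP_db9399_bg (LabP)

universe u

theorem stmt_CORE_of (hR : Stmt_RND1.{u}) (hC : Stmt_CAPE.{u}) :
    MP_db9399_ot.Stmt_CORE.{u} := by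
  intro g n hg hg1
  obtain ⟨l1, H1⟩ := hR g hg hg1
  obtain ⟨l2, H2⟩ := hC g hg hg1
  set R : ℝ := 4 * ((n : ℝ) + 1) with hRdef
  have hR2 : 2 ≤ R := by
    have : (0 : ℝ) ≤ n := Nat.cast_nonneg n
    rw [hRdef]; linarith
  have hR0 : 0 < 1000 * (R + 1) := by linarith
  set gd : ℝ := g / (1000 * (R + 1)) with hgd
  have hgd0 : 0 < gd := div_pos hg hR0
  have hgd1 : 1000 * (R + 1) * gd ≤ g := by
    rw [hgd, mul_div_cancel₀ _ hR0.ne']
  have hgdg : gd ≤ g := by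
    rw [hgd, div_le_iff₀ hR0]
    nlinarith
  refine ⟨gd, max l1 l2, hgd0, hgdg, ?_⟩
  intro l hl
  obtain ⟨δc, hδc, H2'⟩ := H2 l g gd R ((le_max_right _ _).trans hl) hg le_rfl hgd0 hR2 hgd1
  refine ⟨δc, hδc, fun S => ?_⟩
  obtain ⟨δ, hδ, H1'⟩ := H1 l S g gd R ((le_max_left _ _).trans hl) hg le_rfl hgd0 hR2 hgd1
  refine ⟨δ, hδ, fun m r K K1 hm => ?_⟩
  obtain ⟨σ1, c1, ε1, d1, hσ1, hc1, hε1, H1''⟩ := H1' m r K K1 hm
  obtain ⟨σ2, c2, ε2, d2, hσ2, hc2, hε2, H2''⟩ := H2' m r K K1 S hm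
  refine ⟨min σ1 σ2, min c1 c2, min ε1 ε2, 2 * (n + 1) * max d1 d2, lt_min hσ1 hσ2,
    lt_min hc1 hc2, lt_min hε1 hε2, ?_⟩
  intro V _ H d D lab hd hdD hDd hB hL
  have hD : max d1 d2 ≤ D := by
    have h1 : d ≤ 2 * (n + 1) * D := by exact_mod_cast hdD
    exact Nat.le_of_mul_le_mul_left (hd.trans h1) (by positivity)
  have hDR : (D : ℝ) ≤ d := by exact_mod_cast hDd
  have hb1 : (1 + g) * (D : ℝ) ≤ (1 + g) * d := mul_le_mul_of_nonneg_left hDR (by linarith)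
  have hD0 : (0 : ℝ) ≤ ((n : ℝ) + 1) * D := by positivity
  have hb2 : (1 + g) * (d : ℝ) ≤ R * D := by
    have h1 : (1 + g) * (d : ℝ) ≤ (1 + g) * (2 * ((n : ℝ) + 1) * D) :=
      mul_le_mul_of_nonneg_left hdD (by linarith)
    have h2 : (1 + g) * (2 * ((n : ℝ) + 1) * D) ≤ R * D := by
      rw [hRdef]
      nlinarith
    linarith
  have mono : ∀ {ε ε' : ℝ}, MP_db9399_ot.BH g ε ((1 + g) * d) H D → ε ≤ ε' →
      BH g ε' ((1 + g) * d) H D := by
    intro ε ε' h he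
    refine ⟨h.deg, fun v => ?_, h.bip, h.nsc, h.big⟩
    have h1 := h.low v
    have h2 : (0 : ℝ) ≤ (ε' - ε) * D := mul_nonneg (by linarith) (Nat.cast_nonneg _)
    nlinarith
  constructor
  · exact H1'' H D d ((1 + g) * d) lab ((le_max_left _ _).trans hD) (mono hB (min_le_left _ _))
      (hL.mono (min_le_left _ _) (min_le_left _ _)) hb1 hb2 le_rfl
  · have h3 := H2'' H D d ((1 + g) * d) lab ((le_max_right _ _).trans hD)
      (mono hB (min_le_right _ _)) (hL.mono (min_le_right _ _) (min_le_right _ _)) hb1 hb2 le_rfl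
    intro i F U L C qq lg Oi hE hq1 hq2 hLU hCr hCo hlg hO
    refine le_trans ?_ (h3 i F U L C qq lg Oi hE hq1 hq2 hLU hCr hCo hlg hO)
    exact mul_le_mul_of_nonneg_right (by linarith) (Nat.cast_nonneg _)

end Pool.Agent.Work.MP_db9399_hc.helper83
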