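import Pool.Agent.Work.MP_db9399_hc.Interface
import Pool.Agent.Work.MP_db9399_lh_helper83.RND1

/-! Core of the machine for a family of hosts, block RND1H: one round (helper83). -/

set_option autoImplicit false

namespace Pool.Agent.Work.MP_db9399_hc.helper83

open Finset Classical
open Pool.Agent.Work.MP_db9399_all (nb)
open Pool.Agent.Work.MP_db9399_px (LWalk hit ee)
open Pool.Agent.Work.MP_db9399_dn (NB IsMat Tot)
open Pool.Agent.Work.MP_db9399_sc (cut Crit Conn Env Fam Rnd Hv)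
open Pool.Agent.Work.MP_db9399_bg (den cl LabP Good PN IsPat en enP Sep Near REnv r0 Deep Spr Ok
  Lbl bx c3f c3 rs rs_symm eR HPre Ix mem_nb mem_cl)
open Pool.Agent.Work.MP_db9399_lc (BL)
open Pool.Agent.Work.MP_db9399_bg.helper83 (Fr Fr_le nb_Fr nb_Fr' nb_Fr_inter en_Fr notOk_card
  not_deep cl_univ)
open Pool.Agent.Work.MP_db9399_lh (Lh Cr ce su kp io sp pt cr cy rf rx rr tj ty inM rP rR np nr eP
  pr qr qe Vq)
open Pool.Agent.Work.MP_db9399_lh.helper83 (env_deg BL_mono cell_deg near_cell deep_count nr_bd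
  nr_cases SXPtwo card_pat card_Lh final_ineq Pc Mc mem_Vq Vq_eq den_Vq mem_Mq den_Mq)

universe u

section
variable {V : Type u} [Fintype V]

theorem BH_mono {g ε ε' b : ℝ} {G : SimpleGraph V} {D : ℕ} (h : BH g ε b G D) (he : ε ≤ ε') :
    BH g ε' b G D where
  deg := h.deg
  low v := by
    have h1 := h.low v
    have h2 : (0 : ℝ) ≤ (ε' - ε) * D := mul_nonneg (by linarith) (Nat.cast_nonneg _)
    nlinarith
  bip := h.bip
  nsc := h.nsc
  big := h.big

/-- one family: at most `N |C ∩ Vg| / ((1 - g / 20) b)` vertices of `O` are deep in `C` -/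
theorem used_one {g g' R b : ℝ} (hGROW : ∀ {V : Type u} [Fintype V] (G G' GI : SimpleGraph V)
    (D D' DI N : ℕ) (Vg C C' : Finset V) (z : V), 0 < N → GI ≤ G → GI ≤ G' →
    BH g (g / 100) b GI DI → (D : ℝ) + D' ≤ R * DI → b ≤ R * DI →
    (∀ v, (1 - g / 100) * DI / N ≤ ((nb GI v ∩ Vg).card : ℝ)) →
    Deep g' G D N Vg C z → Deep g' G' D' N Vg C' z →
    (1 - g / 20) * b ≤ N * ((C ∩ C' ∩ Vg).card : ℝ))
    (G G' : SimpleGraph V) (D D' DI N : ℕ) (hN : 0 < N) (hBG : BH g (g / 100) b (G ⊓ G') DI)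
    (hr : (D : ℝ) + D' ≤ R * DI) (hr2 : b ≤ R * DI) (Vg C O : Finset V)
    (hdeg : ∀ v, (1 - g / 100) * DI / N ≤ ((nb (G ⊓ G') v ∩ Vg).card : ℝ))
    (hO : Spr g' G' D' N Vg O) :
    (1 - g / 20) * b * (((C ∩ Vg).filter (fun z => Deep g' G D N Vg C z ∧ z ∈ O)).card : ℝ) ≤
      N * ((C ∩ Vg).card : ℝ) := by
  obtain ⟨Cs, hdis, hz, h1⟩ := hO
  set S : Finset V := (C ∩ Vg).filter (fun z => Deep g' G D N Vg C z ∧ z ∈ O) with hS
  have hex : ∀ z : V, ∃ C'' : Finset V, z ∈ S → C'' ∈ Cs ∧ z ∈ C'' ∧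
      Deep g' G' D' N Vg C'' z := by
    intro z
    by_cases h : z ∈ S
    · obtain ⟨-, C'', h2, h3, h4⟩ := hz z (mem_filter.mp h).2.2
      exact ⟨C'', fun _ => ⟨h2, h3, h4⟩⟩
    · exact ⟨∅, fun h' => absurd h' h⟩
  choose f hf using hex
  have hdisj : ∀ z ∈ S, ∀ z' ∈ S, z ≠ z' →
      Disjoint (C ∩ f z ∩ Vg) (C ∩ f z' ∩ Vg) := by
    intro z hz1 z' hz2 hne
    have hfne : f z ≠ f z' := by
      intro he
      have h3 := h1 (f z) (hf z hz1).1
      rw [card_le_one] at h3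
      refine hne (h3 z ?_ z' ?_)
      · exact mem_inter.mpr ⟨(mem_filter.mp hz1).2.2, (hf z hz1).2.1⟩
      · rw [he]
        exact mem_inter.mpr ⟨(mem_filter.mp hz2).2.2, (hf z' hz2).2.1⟩
    have h4 := hdis _ (hf z hz1).1 _ (hf z' hz2).1 hfne
    refine disjoint_left.mpr fun x hx hx' => ?_
    rw [mem_inter, mem_inter] at hx hx'
    exact disjoint_left.mp h4 hx.1.2 hx'.1.2
  have hsum : ∑ z ∈ S, (C ∩ f z ∩ Vg).card ≤ (C ∩ Vg).card := by
    rw [← card_biUnion hdisj]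
    refine card_le_card fun x hx => ?_
    obtain ⟨z, -, h5⟩ := mem_biUnion.mp hx
    rw [mem_inter, mem_inter] at h5
    exact mem_inter.mpr ⟨h5.1.1, h5.2⟩
  have hlow : ∀ z ∈ S, (1 - g / 20) * b ≤ N * ((C ∩ f z ∩ Vg).card : ℝ) := by
    intro z hz1
    exact hGROW G G' (G ⊓ G') D D' DI N Vg C (f z) z hN inf_le_left inf_le_right hBG hr hr2 hdeg
      (mem_filter.mp hz1).2.1 (hf z hz1).2.2
  calc (1 - g / 20) * b * (S.card : ℝ) = ∑ z ∈ S, (1 - g / 20) * b := by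
        rw [sum_const, nsmul_eq_mul]; ring
    _ ≤ ∑ z ∈ S, N * ((C ∩ f z ∩ Vg).card : ℝ) := sum_le_sum hlow
    _ = N * ((∑ z ∈ S, (C ∩ f z ∩ Vg).card : ℕ) : ℝ) := by
        rw [← mul_sum]; push_cast; ring
    _ ≤ _ := by
        refine mul_le_mul_of_nonneg_left ?_ (Nat.cast_nonneg _)
        exact_mod_cast hsum

/-- the used vertices which are deep in `C` -/
theorem used_deep {ι : Type} {g g' R b h : ℝ} (hg : 0 < g) (hgh : g ≤ h) (hh1 : h ≤ 1 / 10)
    (hGROW : ∀ {V : Type u} [Fintype V] (G G' GI : SimpleGraph V)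
    (D D' DI N : ℕ) (Vg C C' : Finset V) (z : V), 0 < N → GI ≤ G → GI ≤ G' →
    BH g (g / 100) b GI DI → (D : ℝ) + D' ≤ R * DI → b ≤ R * DI →
    (∀ v, (1 - g / 100) * DI / N ≤ ((nb GI v ∩ Vg).card : ℝ)) →
    Deep g' G D N Vg C z → Deep g' G' D' N Vg C' z →
    (1 - g / 20) * b ≤ N * ((C ∩ C' ∩ Vg).card : ℝ))
    (Hs : ι → SimpleGraph V) (Ds : ι → ℕ) (Dm : ι → ι → ℕ) (κ : ι) (dd N : ℕ) (hN : 0 < N)
    (hdb : (1 + h) * dd ≤ b) (hb : 0 < b)
    (hBG : ∀ j, BH g (g / 100) b (Hs κ ⊓ Hs j) (Dm κ j))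
    (hr : ∀ j, (Ds κ : ℝ) + Ds j ≤ R * Dm κ j) (hr2 : ∀ j, b ≤ R * Dm κ j)
    (Vg C : Finset V)
    (hdeg : ∀ j v, (1 - g / 100) * Dm κ j / N ≤ ((nb (Hs κ ⊓ Hs j) v ∩ Vg).card : ℝ))
    (lg : ℕ) (hi : ℕ → ι) (Oi : ℕ → Finset V) (hlg : lg * N ≤ dd)
    (hO : ∀ j < lg, Spr g' (Hs (hi j)) (Ds (hi j)) N Vg (Oi j)) :
    (1 + h / 2) * (((C ∩ Vg).filter (fun z => Deep g' (Hs κ) (Ds κ) N Vg C z ∧
      ∃ i < lg, z ∈ Oi i)).card : ℝ) ≤ ((C ∩ Vg).card : ℝ) := by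
  set S : Finset V := (C ∩ Vg).filter (fun z => Deep g' (Hs κ) (Ds κ) N Vg C z ∧
    ∃ i < lg, z ∈ Oi i) with hS
  have hsub : S ⊆ (range lg).biUnion fun i =>
      (C ∩ Vg).filter (fun z => Deep g' (Hs κ) (Ds κ) N Vg C z ∧ z ∈ Oi i) := by
    intro z hz
    obtain ⟨h1, h2, i, h3, h4⟩ := mem_filter.mp hz
    exact mem_biUnion.mpr ⟨i, mem_range.mpr h3, mem_filter.mpr ⟨h1, h2, h4⟩⟩
  have h1 : (S.card : ℝ) ≤ ∑ i ∈ range lg,
      (((C ∩ Vg).filter (fun z => Deep g' (Hs κ) (Ds κ) N Vg C z ∧ z ∈ Oi i)).card : ℝ) := by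
    have := (card_le_card hsub).trans card_biUnion_le
    exact_mod_cast this
  have hgb : 0 < (1 - g / 20) * b := mul_pos (by linarith) hb
  have h2 : (1 - g / 20) * b * (S.card : ℝ) ≤ dd * ((C ∩ Vg).card : ℝ) := by
    calc (1 - g / 20) * b * (S.card : ℝ) ≤ (1 - g / 20) * b * ∑ i ∈ range lg,
          (((C ∩ Vg).filter (fun z => Deep g' (Hs κ) (Ds κ) N Vg C z ∧ z ∈ Oi i)).card : ℝ) :=
          mul_le_mul_of_nonneg_left h1 hgb.le
      _ = ∑ i ∈ range lg, (1 - g / 20) * b *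
          (((C ∩ Vg).filter (fun z => Deep g' (Hs κ) (Ds κ) N Vg C z ∧ z ∈ Oi i)).card : ℝ) := by
          rw [mul_sum]
      _ ≤ ∑ i ∈ range lg, N * ((C ∩ Vg).card : ℝ) := by
          refine sum_le_sum fun i hii => ?_
          exact used_one hGROW (Hs κ) (Hs (hi i)) (Ds κ) (Ds (hi i)) (Dm κ (hi i)) N hN
            (hBG _) (hr _) (hr2 _) Vg C (Oi i) (hdeg _) (hO i (mem_range.mp hii))
      _ = ((lg * N : ℕ) : ℝ) * ((C ∩ Vg).card : ℝ) := by
          rw [sum_const, nsmul_eq_mul, card_range]; push_cast; ring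
      _ ≤ _ := by
          refine mul_le_mul_of_nonneg_right ?_ (Nat.cast_nonneg _)
          exact_mod_cast hlg
  have hS0 : (0 : ℝ) ≤ S.card := Nat.cast_nonneg _
  have h3 : (1 + h / 2) * dd ≤ (1 - g / 20) * b := by
    have e1 : (1 - g / 20) * ((1 + h) * dd) ≤ (1 - g / 20) * b :=
      mul_le_mul_of_nonneg_left hdb (by linarith)
    have e2 : (1 + h / 2) ≤ (1 - g / 20) * (1 + h) := by nlinarith
    have e3 : (1 + h / 2) * (dd : ℝ) ≤ (1 - g / 20) * (1 + h) * dd :=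
      mul_le_mul_of_nonneg_right e2 (Nat.cast_nonneg _)
    linarith
  by_cases hd0 : dd = 0
  · have h4 : (1 - g / 20) * b * (S.card : ℝ) ≤ 0 := by
      refine h2.trans (le_of_eq ?_)
      rw [hd0]; simp
    have h5 : (S.card : ℝ) ≤ 0 := by
      by_contra hc
      push Not at hc
      have := mul_pos hgb hc
      linarith
    have h6 : (S.card : ℝ) = 0 := le_antisymm h5 hS0
    rw [h6, mul_zero]
    exact Nat.cast_nonneg _
  · have hd' : (0 : ℝ) < dd := by exact_mod_cast Nat.pos_of_ne_zero hd0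
    have h4 : dd * ((1 + h / 2) * (S.card : ℝ)) ≤ dd * ((C ∩ Vg).card : ℝ) := by
      calc _ = (1 + h / 2) * dd * (S.card : ℝ) := by ring
        _ ≤ (1 - g / 20) * b * (S.card : ℝ) := mul_le_mul_of_nonneg_right h3 hS0
        _ ≤ _ := h2
    exact le_of_mul_le_mul_left h4 hd'

end

/-- T1H for two degrees -/
theorem T1Htwo (hT1 : Stmt_T1H.{u}) (g ε : ℝ) (n1 n2 B L : ℕ) (hg : 0 < g)
    (hε : 0 < ε) : ∃ δ : ℝ, 0 < δ ∧ ∀ M : ℕ, 0 < M →
    ∃ (σ c1 ε0 : ℝ) (d0 : ℕ), 0 < σ ∧ 0 < c1 ∧ 0 < ε0 ∧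
    ∀ {T β : Type} [Fintype T] [Fintype β] (P : β → Finset T) (R : β → β → Prop) (p b : ℝ)
      {V : Type u} [Fintype V] (G F : SimpleGraph V) (n d qq : ℕ) (lab : V → T)
      (U J L' C : Finset V), (n = n1 ∨ n = n2) → IsPat P R n L p → Fintype.card β ≤ B →
      Fintype.card T = M →
      d0 ≤ d → BH g ε0 b G d → (1 + g) * d ≤ b → LabP G d σ c1 lab →
      REnv G F (n * p * d) δ lab P R U J →
      n * p * d ≤ qq → (qq : ℝ) ≤ 101 / 100 * (n * p * d) → L' ⊆ U → Crit F qq U L' C →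
      Conn F C →
      ∃ Y : Finset V, b < Y.card ∧
        (∀ P' Q' : Finset T,
          ee G (Y ∩ cl lab P') (cl lab Q' \ Y) ≤ ε * (den P' * den Q') * d * Y.card) ∧
        (∀ P' : Finset T, |((Y ∩ cl lab P').card : ℝ) - den P' * Y.card| ≤
          ε * den P' * Y.card) ∧
        ∀ b, Near (C ∩ cl lab (P b)) (Y ∩ cl lab (P b)) (ε * p * Y.card) := by
  obtain ⟨δ1, hδ1, H1⟩ := hT1 g ε n1 B L hg hε
  obtain ⟨δ2, hδ2, H2⟩ := hT1 g ε n2 B L hg hε
  refine ⟨min δ1 δ2, lt_min hδ1 hδ2, fun M hM => ?_⟩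
  obtain ⟨σ1, c1, ε1, d1, hσ1, hc1, hε1, H1'⟩ := H1 M hM
  obtain ⟨σ2, c2, ε2, d2, hσ2, hc2, hε2, H2'⟩ := H2 M hM
  refine ⟨min σ1 σ2, min c1 c2, min ε1 ε2, max d1 d2, lt_min hσ1 hσ2, lt_min hc1 hc2,
    lt_min hε1 hε2, ?_⟩
  intro T β _ _ P R p b V _ G F n d qq lab U J L' C hn hP hB hT hd hBL hb hL hE hq1 hq2 hLU hC hc
  have hq0 : (0 : ℝ) ≤ n * p * d :=
    mul_nonneg (mul_nonneg (Nat.cast_nonneg _) hP.p0.le) (Nat.cast_nonneg _)
  rcases hn with hn | hn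
  · subst hn
    exact H1' P R p b G F d qq lab U J L' C hP hB hT ((le_max_left _ _).trans hd)
      (BH_mono hBL (min_le_left _ _)) hb (hL.mono (min_le_left _ _) (min_le_left _ _))
      (hE.mono hq0 (min_le_left _ _)) hq1 hq2 hLU hC hc
  · subst hn
    exact H2' P R p b G F d qq lab U J L' C hP hB hT ((le_max_right _ _).trans hd)
      (BH_mono hBL (min_le_right _ _)) hb (hL.mono (min_le_right _ _) (min_le_right _ _))
      (hE.mono hq0 (min_le_right _ _)) hq1 hq2 hLU hC hc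

section lbl
variable {V : Type u} [Fintype V] {l m r K K1 S : ℕ}

/-- degrees into a cell of a part -/
theorem cell_low {G : SimpleGraph V} {d : ℕ} {σ c1 ε0 g b : ℝ} {lab : V → Lh l m r K K1 S}
    (hL : LabP G d σ c1 lab) (hBG : BH g ε0 b G d) (hε : ε0 ≤ g / 200)
    (hσ : σ * (3 * (2 * (m : ℝ) + 1)) ≤ g / 200) (a : ZMod (2 * m + 1)) (i : ZMod 3) (v : V) :
    (1 - g / 100) * d / ((3 * (2 * m + 1) : ℕ) : ℝ) ≤ ((nb G v ∩ Vq lab a i).card : ℝ) := by
  have h1 := hL.deg v (cy {a} (Pc l S i))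
  rw [← Vq_eq, den_Vq, abs_le] at h1
  have h3 := hBG.low v
  have hN : (0 : ℝ) < 3 * (2 * (m : ℝ) + 1) := by positivity
  have hd0 : (0 : ℝ) ≤ d := Nat.cast_nonneg _
  push_cast
  obtain ⟨h4, h5⟩ := h1
  have h6 : 1 / (3 * (2 * (m : ℝ) + 1)) * ((nb G v).card : ℝ) =
      ((nb G v).card : ℝ) / (3 * (2 * (m : ℝ) + 1)) := by
    ring
  rw [h6] at h4 h5
  have h7 : σ * d * (3 * (2 * (m : ℝ) + 1)) ≤ g / 200 * d := by
    calc σ * d * (3 * (2 * (m : ℝ) + 1)) = σ * (3 * (2 * (m : ℝ) + 1)) * d := by ring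
      _ ≤ _ := mul_le_mul_of_nonneg_right hσ hd0
  have h8 : (nb G v).card / (3 * (2 * (m : ℝ) + 1)) * (3 * (2 * (m : ℝ) + 1)) =
      ((nb G v).card : ℝ) := by
    field_simp
  have h9 : ε0 * d ≤ g / 200 * d := mul_le_mul_of_nonneg_right hε hd0
  rw [div_le_iff₀ hN]
  have h10 : ((nb G v).card / (3 * (2 * (m : ℝ) + 1)) - σ * d) * (3 * (2 * (m : ℝ) + 1)) ≤
      ((nb G v ∩ Vq lab a i).card : ℝ) * (3 * (2 * (m : ℝ) + 1)) :=
    mul_le_mul_of_nonneg_right (by linarith) hN.le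
  rw [sub_mul, h8] at h10
  nlinarith

end lbl

theorem stmt_RND1H (hSXP : MP_db9399_lc.Stmt_SXP.{u}) (hSXR : MP_db9399_bg.Stmt_SXR.{u})
    (hT1 : Stmt_T1H.{u}) (hPAT : MP_db9399_lh.Stmt_PAT) (hGROW : Stmt_GROWH.{u})
    (hDEEPF : MP_db9399_bg.Stmt_DEEPF.{u}) (hHIT2 : MP_db9399_bg.Stmt_HIT2.{u})
    (hTUT2 : MP_db9399_bg.Stmt_TUT2.{u}) : Stmt_RND1H.{u} := by
  intro h hh0 hh1
  refine ⟨⌈100 / h⌉₊ + 2, ?_⟩
  intro l S g g' R hl hg hgh hg' hR hRg
  have hg1 : g ≤ 1 / 10 := hgh.trans hh1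
  obtain ⟨κd, hκ0, hκ⟩ := hDEEPF g' hg'
  set ε : ℝ := h / (40 * (5 + 2 * κd)) with hεdef
  have hε0 : 0 < ε := by positivity
  have hε1 : ε * (5 + 2 * κd) ≤ h / 40 := by
    rw [hεdef]
    have : (5 + 2 * κd) ≠ 0 := by positivity
    field_simp
    exact le_rfl
  have hl2 : 2 ≤ l := by omega
  have hlg : 200 ≤ h * (2 * (l : ℝ) + 1) := by
    have h1 : (100 / h : ℝ) ≤ l := by
      have h2 : ((⌈100 / h⌉₊ : ℕ) : ℝ) ≤ l := by
        exact_mod_cast (show ⌈100 / h⌉₊ ≤ l by omega)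
      exact (Nat.le_ceil _).trans h2
    rw [div_le_iff₀ hh0] at h1
    nlinarith
  obtain ⟨δ1, hδ1, hT1'⟩ := T1Htwo hT1 g ε (nr S none) (nr S (some 0))
    (3 * ((2 * l + 1) * (3 * (S + 1)))) (4 * l + 3) hg hε0
  obtain ⟨cS, hcS0, hcS1, hSXP'⟩ := SXPtwo hSXP g (nr S none) (nr S (some 0))
    (3 * ((2 * l + 1) * (3 * (S + 1)))) (4 * l + 3) hg
  set c : ℝ := min (cS / 8) (1 / 100) with hc
  have hc0 : 0 < c := lt_min (by positivity) (by norm_num)
  obtain ⟨δ2, dT, hδ2, hTUT⟩ := hTUT2 c hc0 (min_le_right _ _)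
  obtain ⟨dH, hHIT⟩ := hHIT2
  set δ : ℝ := min (min δ1 (δ2 / 10)) (min (cS / 100) (1 / 100000)) with hδdef
  have hδ0 : 0 < δ := lt_min (lt_min hδ1 (by positivity)) (lt_min (by positivity) (by norm_num))
  have hδa : δ ≤ δ1 := (min_le_left _ _).trans (min_le_left _ _)
  have hδb : δ ≤ δ2 / 10 := (min_le_left _ _).trans (min_le_right _ _)
  have hδc : δ ≤ cS / 100 := (min_le_right _ _).trans (min_le_left _ _)
  have hδd : δ ≤ 1 / 100000 := (min_le_right _ _).trans (min_le_right _ _)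
  refine ⟨δ, hδ0, ?_⟩
  intro m r K K1 hm
  have hM : 0 < Fintype.card (Lh l m r K K1 S) := by rw [card_Lh]; positivity
  obtain ⟨σ1, c11, ε1, d1, hσ1, hc11, hε1', HT1⟩ := hT1' (Fintype.card (Lh l m r K K1 S)) hM
  obtain ⟨σ2, c12, ε2, d2, hσ2, hc12, hε2', HSX⟩ := hSXP' (Fintype.card (Lh l m r K K1 S)) hM
  obtain ⟨hPat, -⟩ := hPAT l m r K K1 S hl2 hm
  set N : ℝ := 3 * (2 * (m : ℝ) + 1) with hN
  set Λ : ℝ := 2 * (l : ℝ) + 1 with hΛ
  have hN0 : 0 < N := by positivity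
  have hΛ0 : 0 < Λ := by positivity
  have hS0 : (0 : ℝ) < (S : ℝ) + 1 := by positivity
  have hp0 : 0 < pr l m S := (hPat 0 ⟨0, by omega⟩ none).p0
  have hpe : pr l m S * ((S : ℝ) + 1) = 1 / (N * Λ) := by
    rw [pr, hN, hΛ]
    field_simp
  -- the constants
  set σ : ℝ := min (min σ1 σ2) (min (δ * pr l m S) (g / (200 * N))) with hσdef
  have hσ0 : 0 < σ := lt_min (lt_min hσ1 hσ2) (lt_min (by positivity) (by positivity))
  set ε0 : ℝ := min (min ε1 ε2) (min δ (g / 200)) with hε0def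
  have hε00 : 0 < ε0 := lt_min (lt_min hε1' hε2') (lt_min hδ0 (by positivity))
  obtain ⟨D0, hD0⟩ : ∃ D0 : ℕ, 4 * (2500 + 10 / δ2 + dH + dT) / pr l m S ≤ (D0 : ℝ) :=
    ⟨⌈4 * (2500 + 10 / δ2 + dH + dT) / pr l m S⌉₊, Nat.le_ceil _⟩
  refine ⟨σ, min c11 c12, ε0, max (max d1 d2) (D0 + 1), hσ0, lt_min hc11 hc12, hε00, ?_⟩
  intro V _ ι Hs Ds Dm b dd lab hdall HH hdb κ τ i F a hv U J lg hi Oi hτ hE hlgN hO
  set G : SimpleGraph V := Hs κ with hGdef
  set d : ℕ := Ds κ with hddef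
  have hd : max (max d1 d2) (D0 + 1) ≤ d := hdall κ
  have hBG : BH g ε0 b G d := HH.bh κ
  have hLab : LabP G d σ (min c11 c12) lab := HH.lb κ
  have hbd : (1 + g) * d ≤ b := HH.b1 κ
  have hd1 : d1 ≤ d := (le_max_left _ _).trans ((le_max_left _ _).trans hd)
  have hd2 : d2 ≤ d := (le_max_right _ _).trans ((le_max_left _ _).trans hd)
  have hdD : D0 + 1 ≤ d := (le_max_right _ _).trans hd
  have hd0 : 0 < d := by omega
  have hdR : (0 : ℝ) < d := by exact_mod_cast hd0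
  have hDd : (D0 : ℝ) ≤ d := by exact_mod_cast (by omega : D0 ≤ d)
  have hσN : σ * N ≤ g / 200 := by
    have h1 : σ ≤ g / (200 * N) := (min_le_right _ _).trans (min_le_right _ _)
    calc σ * N ≤ g / (200 * N) * N := mul_le_mul_of_nonneg_right h1 hN0.le
      _ = g / 200 := by field_simp
  have hε0δ : ε0 ≤ δ := (min_le_right _ _).trans (min_le_left _ _)
  have hε0g : ε0 ≤ g / 200 := (min_le_right _ _).trans (min_le_right _ _)
  have hBG1 : BH g ε1 b G d := BH_mono hBG ((min_le_left _ _).trans (min_le_left _ _))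
  have hBG2 : BL g ε2 G d :=
    (BH_mono hBG ((min_le_left _ _).trans (min_le_right _ _))).bl hbd
  have hBL : BL g ε0 G d := hBG.bl hbd
  have hBGI : ∀ j, BH g (g / 100) b (Hs κ ⊓ Hs j) (Dm κ j) := fun j =>
    BH_mono (HH.bh2 κ j) (by linarith)
  have hLab1 : LabP G d σ1 c11 lab :=
    hLab.mono ((min_le_left _ _).trans (min_le_left _ _)) (min_le_left _ _)
  have hLab2 : LabP G d σ2 c12 lab :=
    hLab.mono ((min_le_left _ _).trans (min_le_right _ _)) (min_le_right _ _)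
  have hcell := cell_deg hLab hBL hε0g hg1 hσN
  have hb0 : 0 < b := lt_of_lt_of_le (by positivity) hbd
  -- the typical degree
  obtain ⟨hnr1, hnr2⟩ := nr_bd S τ
  have hnr1' : (1 : ℝ) ≤ nr S τ := by exact_mod_cast hnr1
  have hnr2' : (nr S τ : ℝ) ≤ 10 * ((S : ℝ) + 1) := by exact_mod_cast hnr2
  set q : ℝ := qr l m S τ d with hq
  have hqn : (nr S τ : ℝ) * pr l m S * (d : ℝ) = q := rfl
  have hpd : pr l m S * d ≤ q := by
    rw [← hqn]
    calc pr l m S * d = 1 * pr l m S * d := by ring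
      _ ≤ _ := mul_le_mul_of_nonneg_right (mul_le_mul_of_nonneg_right hnr1' hp0.le) hdR.le
  have hq0 : 0 < q := lt_of_lt_of_le (mul_pos hp0 hdR) hpd
  have hqup : q ≤ 10 * (d : ℝ) / (N * Λ) := by
    rw [← hqn]
    calc (nr S τ : ℝ) * pr l m S * d ≤ 10 * ((S : ℝ) + 1) * pr l m S * d :=
          mul_le_mul_of_nonneg_right (mul_le_mul_of_nonneg_right hnr2' hp0.le) hdR.le
      _ = 10 * d * (pr l m S * ((S : ℝ) + 1)) := by ring
      _ = 10 * (d : ℝ) / (N * Λ) := by rw [hpe]; ring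
  have hqbig : 4 * (2500 + 10 / δ2 + dH + dT) ≤ q := by
    refine le_trans ?_ hpd
    have h1 : 4 * (2500 + 10 / δ2 + dH + dT) / pr l m S ≤ d := hD0.trans hDd
    rw [div_le_iff₀ hp0] at h1
    linarith
  have hδ2i : 0 < 10 / δ2 := by positivity
  have hdH0 : (0 : ℝ) ≤ dH := Nat.cast_nonneg _
  have hdT0 : (0 : ℝ) ≤ dT := Nat.cast_nonneg _
  have hσq : σ * d ≤ δ * q := by
    have h1 : σ ≤ δ * pr l m S := (min_le_right _ _).trans (min_le_left _ _)
    calc σ * d ≤ δ * pr l m S * d := mul_le_mul_of_nonneg_right h1 hdR.le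
      _ = δ * (pr l m S * d) := by ring
      _ ≤ δ * q := mul_le_mul_of_nonneg_left hpd hδ0.le
  -- restriction to U
  have hPa := hPat a hv τ
  have hE' := Pool.Agent.Work.MP_db9399_bg.helper83.REnv.restrict hE
  set F' : SimpleGraph V := Fr F U with hF'
  have hE'' : REnv G F' ((nr S τ : ℝ) * pr l m S * (d : ℝ)) δ
      lab (rP l r K K1 S a hv τ) (rR l S τ) U J := hE'
  have hdegs := env_deg hPa hLab hBL hE'' (by rw [hqn]; exact hσq) hε0δ hδ0.le
  rw [hqn] at hdegs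
  obtain ⟨qq, hqq1, hqq2⟩ : ∃ qq : ℕ, (1 + 3 * δ) * q ≤ qq ∧ (qq : ℝ) < (1 + 3 * δ) * q + 1 :=
    ⟨⌈(1 + 3 * δ) * q⌉₊, Nat.le_ceil _, Nat.ceil_lt_add_one (by positivity)⟩
  have hδq : 0 < δ * q := by positivity
  have hδq1 : δ * q ≤ 1 / 100000 * q := mul_le_mul_of_nonneg_right hδd hq0.le
  have hδq2 : δ * q ≤ δ2 / 10 * q := mul_le_mul_of_nonneg_right hδb hq0.le
  have hqqq : q ≤ qq := by linarith
  have hqq3 : (qq : ℝ) ≤ 101 / 100 * q := by linarith
  have hdeg' : ∀ v, (nb F' v).card ≤ qq := by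
    intro v
    by_cases hv : v ∈ U
    · have h1 := (hdegs v hv).2
      have h2 : nb F' v ∩ U = nb F' v := by
        rw [hF', nb_Fr F hv, inter_assoc, inter_self]
      rw [h2] at h1
      have h3 : ((nb F' v).card : ℝ) ≤ qq := by linarith
      exact_mod_cast h3
    · rw [hF', nb_Fr' F hv]; simp
  have hEnv : Env F' F' qq U U := by
    refine ⟨le_rfl, hdeg', Subset.refl _, ?_⟩
    intro v hv
    have h1 := (hdegs v hv).1
    have h2 : (999 : ℝ) * qq ≤ 1000 * ((nb F' v ∩ U).card : ℝ) := by linarith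
    exact_mod_cast h2
  have hdHq : dH ≤ qq := by
    have : (dH : ℝ) ≤ qq := by linarith
    exact_mod_cast this
  have hdTq : dT ≤ qq := by
    have : (dT : ℝ) ≤ qq := by linarith
    exact_mod_cast this
  obtain ⟨Cs, hFam, hCs⟩ := hHIT F' qq U U hdHq hEnv
  -- the exceptional vertices
  have hcardβ := card_pat l S τ
  have hex : ∀ C ∈ Cs, ∃ z ∈ C, (ce (lab z) = a ∧ pt (lab z) = i ∧ inM (lab z)) ∧
      Deep g' G d (3 * (2 * m + 1)) (Vq lab a i) C z ∧ Ok F' U C z ∧ ∀ j < lg, z ∉ Oi j := by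
    intro C hC
    have hcrit := hFam.crit C hC
    have hconn := hFam.conn C hC
    obtain ⟨Y, hY1, hY2, hY3, hY4⟩ := HT1 (rP l r K K1 S a hv τ) (rR l S τ)
      (pr l m S) b G F' (nr S τ) d qq lab U J U C (nr_cases S τ) hPa hcardβ rfl hd1 hBG1 hbd
      hLab1 (hE''.mono (by rw [hqn]; exact hq0.le) hδa) (by rw [hqn]; exact hqqq)
      (by rw [hqn]; exact hqq3) (Subset.refl _) hcrit hconn
    have hYpos : (0 : ℝ) < Y.card := hb0.trans hY1
    set t : ℝ := Y.card / N with ht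
    have ht0 : 0 < t := by positivity
    have hnear := near_cell hτ hY4
    have hsd : (((C ∩ Vq lab a i) \ Y).card : ℝ) + (((Y ∩ Vq lab a i) \ C).card : ℝ) ≤
        ε * t := by
      refine hnear.trans (le_of_eq ?_)
      rw [ht, ← hΛ]
      calc Λ * ((S : ℝ) + 1) * (ε * pr l m S * (Y.card : ℝ)) =
          Λ * (pr l m S * ((S : ℝ) + 1)) * (ε * (Y.card : ℝ)) := by ring
        _ = _ := by rw [hpe]; field_simp
    have hsd1 : (0 : ℝ) ≤ (((C ∩ Vq lab a i) \ Y).card : ℝ) := Nat.cast_nonneg _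
    have hsd2 : (0 : ℝ) ≤ (((Y ∩ Vq lab a i) \ C).card : ℝ) := Nat.cast_nonneg _
    -- sizes
    have hcv : ((C ∩ Vq lab a i).card : ℝ) ≤ (1 + 2 * ε) * t := by
      have h1 := hY3 (cy {a} (Pc l S i))
      rw [← Vq_eq, den_Vq, ← hN, abs_le] at h1
      have h2 : ((C ∩ Vq lab a i).card : ℝ) ≤ ((Y ∩ Vq lab a i).card : ℝ) +
          (((C ∩ Vq lab a i) \ Y).card : ℝ) := by
        have : C ∩ Vq lab a i ⊆ (Y ∩ Vq lab a i) ∪ ((C ∩ Vq lab a i) \ Y) := by
          intro v hv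
          by_cases hvY : v ∈ Y
          · exact mem_union_left _ (mem_inter.mpr ⟨hvY, (mem_inter.mp hv).2⟩)
          · exact mem_union_right _ (mem_sdiff.mpr ⟨hv, hvY⟩)
        exact_mod_cast (card_le_card this).trans (card_union_le _ _)
      have h3 : 1 / N * (Y.card : ℝ) = t := by rw [ht]; ring
      have h4 : ε * (1 / N) * (Y.card : ℝ) = ε * t := by rw [ht]; ring
      rw [h3, h4] at h1
      linarith [h1.2]
    have hx1 : t * (1 - 4 / Λ - 2 * ε) ≤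
        ((C.filter (fun z => ce (lab z) = a ∧ pt (lab z) = i ∧ inM (lab z))).card : ℝ) := by
      have h1 := hY3 (cy {a} (Mc l S i))
      obtain ⟨hd3, hd4⟩ := den_Mq (l := l) (m := m) (r := r) (K := K) (K1 := K1) (S := S) a i
      rw [← hN, ← hΛ] at hd3
      rw [← hN] at hd4
      rw [abs_le] at h1
      have h2 : ((Y ∩ cl lab (cy {a} (Mc l S i))).card : ℝ) ≤
          ((C.filter (fun z => ce (lab z) = a ∧ pt (lab z) = i ∧ inM (lab z))).card : ℝ) +
          (((Y ∩ Vq lab a i) \ C).card : ℝ) := by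
        have : Y ∩ cl lab (cy {a} (Mc l S i)) ⊆
            (C.filter (fun z => ce (lab z) = a ∧ pt (lab z) = i ∧ inM (lab z))) ∪
              ((Y ∩ Vq lab a i) \ C) := by
          intro v hv
          rw [mem_inter, mem_cl, mem_Mq] at hv
          by_cases hvC : v ∈ C
          · exact mem_union_left _ (mem_filter.mpr ⟨hvC, hv.2⟩)
          · exact mem_union_right _ (mem_sdiff.mpr
              ⟨mem_inter.mpr ⟨hv.1, mem_Vq.mpr ⟨hv.2.1, hv.2.2.1⟩⟩, hvC⟩)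
        exact_mod_cast (card_le_card this).trans (card_union_le _ _)
      have h3 : (1 - 4 / Λ) * t ≤ den (cy {a} (Mc l S i) : Finset (Lh l m r K K1 S)) *
          (Y.card : ℝ) := by
        calc (1 - 4 / Λ) * t = (1 - 4 / Λ) * (1 / N) * (Y.card : ℝ) := by rw [ht]; ring
          _ ≤ _ := mul_le_mul_of_nonneg_right hd3 hYpos.le
      have h4 : ε * den (cy {a} (Mc l S i) : Finset (Lh l m r K K1 S)) * (Y.card : ℝ) ≤
          ε * t := by
        calc ε * den (cy {a} (Mc l S i) : Finset (Lh l m r K K1 S)) * (Y.card : ℝ) ≤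
            ε * (1 / N) * (Y.card : ℝ) :=
              mul_le_mul_of_nonneg_right (mul_le_mul_of_nonneg_left hd4 hε0.le) hYpos.le
          _ = ε * t := by rw [ht]; ring
      have h6 : t * (1 - 4 / Λ - 2 * ε) = (1 - 4 / Λ) * t - ε * t - ε * t := by ring
      rw [h6]
      linarith [h1.1]
    -- not deep
    have hb1 : (((C ∩ Vq lab a i).filter
        (fun v => ¬ Deep g' G d (3 * (2 * m + 1)) (Vq lab a i) C v)).card : ℝ) ≤
        (1 + 2 * κd) * ε * t := by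
      have h1 := not_deep (Deep g' G d (3 * (2 * m + 1)) (Vq lab a i) C) (Vq lab a i) Y C
      have h2 := deep_count (C := C) hd0 hε0.le hκ (fun v => hBG.deg v) a i
        (fun v => (hcell a i v).2) hY2
      rw [← hN] at h2
      have h3 : ε * (Y.card : ℝ) / N = ε * t := by rw [ht]; ring
      rw [h3] at h2
      have h4 : κd * (ε * t + (((Y ∩ Vq lab a i) \ C).card : ℝ)) ≤ κd * (ε * t + ε * t) :=
        mul_le_mul_of_nonneg_left (by linarith) hκ0.le
      have h5 : (1 + 2 * κd) * ε * t = ε * t + κd * (ε * t + ε * t) := by ring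
      rw [h5]
      linarith only [h1, h2, h4, hsd, hsd1, hsd2]
    -- used and deep
    have hb2 := used_deep (R := R) (g' := g') hg hgh hh1
      (hGROW g g' R b hg hg1 hg' hR hRg) Hs Ds Dm κ dd (3 * (2 * m + 1)) (by omega) hdb hb0
      hBGI (fun j => HH.rat κ j) (fun j => HH.ratb κ j) (Vq lab a i) C
      (fun j v => cell_low (HH.lb2 κ j) (HH.bh2 κ j) hε0g hσN a i v) lg hi Oi hlgN hO
    -- not Ok
    have hb3 : ((C.filter (fun z => ¬ Ok F' U C z)).card : ℝ) ≤ 20 * t / Λ := by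
      have h1 := notOk_card F' U C qq ((1 - 3 * δ) * q) (fun v hv => (hdegs v hv).1) hcrit.1
        hcrit.2.2 (by linarith)
      have h2 : (5 : ℝ) * cut F' U C < 7 * qq := by exact_mod_cast hcrit.2.2
      have h3 : ((C.filter (fun z => ¬ Ok F' U C z)).card : ℝ) ≤ 4 + cut F' U C := by
        exact_mod_cast h1
      have h4 : 2 * q ≤ 20 * t / Λ := by
        rw [ht]
        have h5 : (d : ℝ) ≤ Y.card := by
          have : 0 ≤ g * d := by positivity
          linarith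
        calc 2 * q ≤ 2 * (10 * (d : ℝ) / (N * Λ)) :=
              mul_le_mul_of_nonneg_left hqup (by norm_num)
          _ = 20 * ((d : ℝ) / N) / Λ := by field_simp; norm_num
          _ ≤ _ := by
            refine div_le_div_of_nonneg_right ?_ hΛ0.le
            exact mul_le_mul_of_nonneg_left (div_le_div_of_nonneg_right h5 hN0.le) (by norm_num)
      linarith
    have hfin := final_ineq
      (x1 := ((C.filter (fun z => ce (lab z) = a ∧ pt (lab z) = i ∧ inM (lab z))).card : ℝ))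
      (b1 := (((C ∩ Vq lab a i).filter
        (fun v => ¬ Deep g' G d (3 * (2 * m + 1)) (Vq lab a i) C v)).card : ℝ))
      (b2 := (((C ∩ Vq lab a i).filter (fun z => Deep g' G d (3 * (2 * m + 1)) (Vq lab a i) C z ∧
        ∃ j < lg, z ∈ Oi j)).card : ℝ))
      (b3 := ((C.filter (fun z => ¬ Ok F' U C z)).card : ℝ))
      ht0 hh0 hh1 hκ0 hε0.le hε1 hlg hΛ0 hx1 hb1 (Nat.cast_nonneg _) hb2 hcv hb3
    by_contra hno
    push Not at hno
    have hsub : C.filter (fun z => ce (lab z) = a ∧ pt (lab z) = i ∧ inM (lab z)) ⊆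
        (((C ∩ Vq lab a i).filter
          (fun v => ¬ Deep g' G d (3 * (2 * m + 1)) (Vq lab a i) C v)) ∪
        ((C ∩ Vq lab a i).filter (fun z => Deep g' G d (3 * (2 * m + 1)) (Vq lab a i) C z ∧
          ∃ j < lg, z ∈ Oi j))) ∪ (C.filter (fun z => ¬ Ok F' U C z)) := by
      intro z hz
      obtain ⟨hzC, hza⟩ := mem_filter.mp hz
      have hzV : z ∈ C ∩ Vq lab a i := mem_inter.mpr ⟨hzC, mem_Vq.mpr ⟨hza.1, hza.2.1⟩⟩
      by_cases hD : Deep g' G d (3 * (2 * m + 1)) (Vq lab a i) C z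
      · by_cases hOk : Ok F' U C z
        · obtain ⟨j, hj, hj2⟩ := hno z hzC hza hD hOk
          exact mem_union_left _ (mem_union_right _ (mem_filter.mpr ⟨hzV, hD, j, hj, hj2⟩))
        · exact mem_union_right _ (mem_filter.mpr ⟨hzC, hOk⟩)
      · exact mem_union_left _ (mem_union_left _ (mem_filter.mpr ⟨hzV, hD⟩))
    have h7 := (card_le_card hsub).trans (card_union_le _ _)
    have h8 := card_union_le ((C ∩ Vq lab a i).filter
        (fun v => ¬ Deep g' G d (3 * (2 * m + 1)) (Vq lab a i) C v))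
        ((C ∩ Vq lab a i).filter (fun z => Deep g' G d (3 * (2 * m + 1)) (Vq lab a i) C z ∧
          ∃ j < lg, z ∈ Oi j))
    have h9 : ((C.filter (fun z => ce (lab z) = a ∧ pt (lab z) = i ∧ inM (lab z))).card : ℝ) ≤
        (((C ∩ Vq lab a i).filter
        (fun v => ¬ Deep g' G d (3 * (2 * m + 1)) (Vq lab a i) C v)).card : ℝ) +
        (((C ∩ Vq lab a i).filter (fun z => Deep g' G d (3 * (2 * m + 1)) (Vq lab a i) C z ∧
        ∃ j < lg, z ∈ Oi j)).card : ℝ) + ((C.filter (fun z => ¬ Ok F' U C z)).card : ℝ) := by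
      exact_mod_cast h7.trans (Nat.add_le_add_right h8 _)
    linarith
  -- choice
  choose f hf using hex
  set O : Finset V := Cs.attach.image (fun C => f C.1 C.2) with hOdef
  have hOmem : ∀ z ∈ O, ∃ (C : Finset V) (hC : C ∈ Cs), f C hC = z := by
    intro z hz
    obtain ⟨C, -, h1⟩ := mem_image.mp hz
    exact ⟨C.1, C.2, h1⟩
  have hOf : ∀ (C : Finset V) (hC : C ∈ Cs), f C hC ∈ O := fun C hC =>
    mem_image.mpr ⟨⟨C, hC⟩, mem_attach _ _, rfl⟩
  have hen : ∀ A B : Finset V, Disjoint A B → A ⊆ U → B ⊆ U →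
      c * qq * ((A.card : ℝ) + B.card) ≤ en F' U A B := by
    intro A B hAB hA hB
    have h1 := hSXR (rP l r K K1 S a hv τ) (rR l S τ) (nr S τ) (4 * l + 3)
      (pr l m S) cS δ q G F' lab U J hPa hcS0 hcS1 hδ0.le hδc
      hq0.le (by
        intro A B h1 h2
        have h3 := HSX (rP l r K K1 S a hv τ) (rR l S τ)
          (pr l m S) G (nr S τ) d lab A B (nr_cases S τ) hPa hcardβ rfl hd2 hBG2 hLab2
          h1 h2
        rw [hqn] at h3
        exact h3) hE' A B hAB hA hB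
    refine le_trans ?_ h1
    have h4 : c * qq ≤ cS / 4 * q := by
      have h5 : c ≤ cS / 8 := min_le_left _ _
      calc c * qq ≤ cS / 8 * qq := mul_le_mul_of_nonneg_right h5 (Nat.cast_nonneg _)
        _ ≤ cS / 8 * (101 / 100 * q) := mul_le_mul_of_nonneg_left hqq3 (by positivity)
        _ ≤ cS / 4 * q := by linarith only [mul_pos hcS0 hq0]
    exact mul_le_mul_of_nonneg_right h4 (by positivity)
  have hlow : ∀ v ∈ U, (1 - δ2) * qq ≤ ((nb F' v ∩ U).card : ℝ) := by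
    intro v hv
    have h1 := (hdegs v hv).1
    have h2 : δ2 * q ≤ δ2 * qq := mul_le_mul_of_nonneg_left hqqq hδ2.le
    have h3 : 40 ≤ δ2 * q := by
      have h4 : 40 / δ2 ≤ q := by
        have : 40 / δ2 = 4 * (10 / δ2) := by ring
        rw [this]; linarith
      rw [div_le_iff₀ hδ2] at h4
      linarith only [h4]
    have e : (1 - δ2) * (qq : ℝ) = qq - δ2 * qq := by ring
    rw [e]
    linarith only [h1, h2, h3, hqq2, hδq2, hq0]
  obtain ⟨M, hMF, hMm, hMU, hMc⟩ := hTUT F' qq U O Cs hdTq hdeg' hlow hen hFam.crit hFam.dis hCs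
    (fun C hC => ⟨f C hC, hOf C hC, (hf C hC).2.2.2.1⟩)
  refine ⟨M, O, hMF.trans (Fr_le F U), hMm, hMU, hMc, ?_, ?_, ?_⟩
  · intro z hz
    obtain ⟨C, hC, rfl⟩ := hOmem z hz
    exact (hFam.crit C hC).1 (hf C hC).1
  · intro z hz
    obtain ⟨C, hC, rfl⟩ := hOmem z hz
    exact ⟨(hf C hC).2.1.1, (hf C hC).2.1.2.1, (hf C hC).2.1.2.2, (hf C hC).2.2.2.2⟩
  · refine ⟨Cs, hFam.dis, ?_, ?_⟩
    · intro z hz
      obtain ⟨C, hC, rfl⟩ := hOmem z hz
      exact ⟨mem_Vq.mpr ⟨(hf C hC).2.1.1, (hf C hC).2.1.2.1⟩, C, hC, (hf C hC).1,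
        (hf C hC).2.2.1⟩
    · intro C hC
      have key : ∀ z ∈ O ∩ C, z = f C hC := by
        intro z hz
        rw [mem_inter] at hz
        obtain ⟨C', hC', rfl⟩ := hOmem z hz.1
        by_cases he : C' = C
        · subst he; rfl
        · exact absurd hz.2 (disjoint_left.mp (hFam.dis C' hC' C hC he) (hf C' hC').1)
      rw [card_le_one]
      intro z hz z' hz'
      rw [key z hz, key z' hz']

end Pool.Agent.Work.MP_db9399_hc.helper83
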